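import Pool.Agent.Y836.RS.Small1

set_option autoImplicit false
set_option linter.unusedSectionVars false

open Finset Equiv

namespace Pool.Agent.Y836.RS

open Pool.Agent.Y105.RS

section

variable {V : Type} [Fintype V] [DecidableEq V] [Nonempty V]

/-- mean over the letters and the words -/
noncomputable def am (p : V → V → ℝ) (M : ℕ) (Φ : Perm V → V → V → ℝ) : ℝ :=
  mean p M (fun w => (∑ j, Φ (wp w) (la w j) (lb w j)) / M)

theorem am_mono {p : V → V → ℝ} (hp : Wt p) (M : ℕ) {Φ Ψ : Perm V → V → V → ℝ}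
    (h : ∀ σ a b, Φ σ a b ≤ Ψ σ a b) : am p M Φ ≤ am p M Ψ := by
  unfold am
  refine mean_mono hp M fun w => ?_
  refine div_le_div_of_nonneg_right ?_ (Nat.cast_nonneg M)
  exact Finset.sum_le_sum fun j _ => h _ _ _

theorem am_add (p : V → V → ℝ) (M : ℕ) (Φ Ψ : Perm V → V → V → ℝ) :
    am p M (fun σ a b => Φ σ a b + Ψ σ a b) = am p M Φ + am p M Ψ := by
  unfold am
  rw [← mean_add]
  congr 1
  funext w
  rw [Finset.sum_add_distrib, add_div]

theorem am_smul (p : V → V → ℝ) (M : ℕ) (c : ℝ) (Φ : Perm V → V → V → ℝ) :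
    am p M (fun σ a b => c * Φ σ a b) = c * am p M Φ := by
  unfold am
  rw [← mean_smul]
  congr 1
  funext w
  rw [← Finset.mul_sum, mul_div_assoc]

theorem am_flip (hF : S_FLIP) (p : V → V → ℝ) (M : ℕ) (Φ : Perm V → V → V → ℝ) :
    am p M Φ = am p M (fun σ a b => Φ (swap a b * σ) a b) := by
  have key : ∀ Ψ : Perm V → V → V → ℝ,
      am p M Ψ = (1 / (M : ℝ)) * ∑ j : Fin M, mean p M (fun w => Ψ (wp w) (la w j) (lb w j)) := by
    intro Ψ
    unfold am
    rw [← mean_sum, ← mean_smul]
    congr 1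
    funext w
    ring
  rw [key, key]
  congr 1
  refine Finset.sum_congr rfl fun j _ => ?_
  exact hF V p M j Φ

open Classical in
/-- indicator -/
noncomputable def ind (P : Prop) : ℝ := if P then 1 else 0

theorem ind_nonneg (P : Prop) : 0 ≤ ind P := by
  unfold ind
  split_ifs <;> norm_num

theorem ind_le (P : Prop) (x : ℝ) (h0 : 0 ≤ x) (h : P → 1 ≤ x) : ind P ≤ x := by
  unfold ind
  split_ifs with hP
  · exact h hP
  · exact h0

theorem ind_true {P : Prop} (h : P) : ind P = 1 := by
  unfold ind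
  rw [if_pos h]

/-- short cycles of `a` -/
theorem am_cl (hF : S_FLIP) {p : V → V → ℝ} (hp : Wt p) (M K : ℕ) (β : ℝ)
    (h1 : am p M (fun σ a b => ind (near K σ a b)) ≤ β)
    (h2 : am p M (fun σ a b => ind (near K σ b a)) ≤ β) :
    am p M (fun σ a _ => ind (cl σ a ≤ K)) ≤ 2 * β ∧
    am p M (fun σ _ b => ind (cl σ b ≤ K)) ≤ 2 * β := by
  constructor
  · have h3 : am p M (fun σ a _ => ind (cl σ a ≤ K)) ≤
        am p M (fun σ a b => ind (near K σ a b) + ind (near K (swap a b * σ) a b)) := by
      refine am_mono hp M fun σ a b => ?_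
      refine ind_le _ _ (add_nonneg (ind_nonneg _) (ind_nonneg _)) fun hK => ?_
      by_cases hs : σ.SameCycle a b
      · rw [ind_true (near_same K σ a b hK hs)]
        have := ind_nonneg (near K (swap a b * σ) a b)
        linarith
      · rw [ind_true (near_diff K σ a b hK hs)]
        have := ind_nonneg (near K σ a b)
        linarith
    have h4 := am_flip hF p M (fun σ a b => ind (near K σ a b))
    rw [am_add] at h3
    linarith
  · have h3 : am p M (fun σ _ b => ind (cl σ b ≤ K)) ≤
        am p M (fun σ a b => ind (near K σ b a) + ind (near K (swap a b * σ) b a)) := by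
      refine am_mono hp M fun σ a b => ?_
      refine ind_le _ _ (add_nonneg (ind_nonneg _) (ind_nonneg _)) fun hK => ?_
      by_cases hs : σ.SameCycle b a
      · rw [ind_true (near_same K σ b a hK hs)]
        have := ind_nonneg (near K (swap a b * σ) b a)
        linarith
      · have hn := near_diff K σ b a hK hs
        rw [swap_comm] at hn
        rw [ind_true hn]
        have := ind_nonneg (near K σ b a)
        linarith
    have h4 := am_flip hF p M (fun σ a b => ind (near K σ b a))
    rw [am_add] at h3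
    linarith

/-- the averaged function of a random colouring -/
theorem gg_bound {p r : V → V → ℝ} {κ : ℝ} (hp : Wt p) (hr : Ker r κ) {m : ℕ}
    {Ω : Type} [Fintype Ω] (P : Ω → ℝ) (c : Ω → V → Fin m) (B : ℝ)
    (hB : ∀ (a : V) (q : V → ℝ), (∀ z, 0 ≤ q z) → (∀ z, q z ≤ κ) → ∑ z, q z = 1 →
      ∑ z, q z * ∑ ω, P ω * (if c ω a = c ω z then 1 else 0) ≤ B) (A : Perm V) :
    ∑ ω, P ω * gg p r (fun a b : Fin m => if a = b then (1 : ℝ) else 0) (c ω ∘ A) ≤ B := by
  have hn : (0 : ℝ) < Fintype.card V := by exact_mod_cast Fintype.card_pos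
  set φ : V → V → ℝ := fun a z => ∑ ω, P ω * (if c ω a = c ω z then (1 : ℝ) else 0) with hφ
  have e1 : ∑ ω, P ω * gg p r (fun a b : Fin m => if a = b then (1 : ℝ) else 0) (c ω ∘ A) =
      ∑ x, ∑ y, p x y * ∑ z, r y z * φ (A x) (A z) := by
    unfold gg
    simp only [hφ, Finset.mul_sum, Function.comp_apply]
    rw [Finset.sum_comm]
    refine Finset.sum_congr rfl fun x _ => ?_
    rw [Finset.sum_comm]
    refine Finset.sum_congr rfl fun y _ => ?_
    rw [Finset.sum_comm]
    refine Finset.sum_congr rfl fun z _ => ?_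
    refine Finset.sum_congr rfl fun ω _ => ?_
    ring
  rw [e1]
  have e2 : ∀ x, ∑ y, p x y * ∑ z, r y z * φ (A x) (A z) ≤ B / Fintype.card V := by
    intro x
    have h1 := hB (A x) (fun z => Fintype.card V * ∑ y, p x y * r y (A.symm z))
      (fun z => mul_nonneg hn.le (Finset.sum_nonneg fun y _ => mul_nonneg (hp.nn x y) (hr.nn _ _)))
      (by
        intro z
        calc (Fintype.card V : ℝ) * ∑ y, p x y * r y (A.symm z)
            ≤ Fintype.card V * ∑ y, p x y * κ := by
              refine mul_le_mul_of_nonneg_left ?_ hn.le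
              exact Finset.sum_le_sum fun y _ => mul_le_mul_of_nonneg_left (hr.le _ _) (hp.nn x y)
          _ = κ := by
              rw [← Finset.sum_mul, hp.reg x]
              field_simp)
      (by
        have e3 : ∑ z, (Fintype.card V : ℝ) * ∑ y, p x y * r y (A.symm z) =
            Fintype.card V * ∑ z, ∑ y, p x y * r y z := by
          rw [← Finset.mul_sum]
          congr 1
          exact Equiv.sum_comp A.symm (fun z => ∑ y, p x y * r y z)
        rw [e3, Finset.sum_comm]
        have e4 : ∀ y, ∑ z, p x y * r y z = p x y := by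
          intro y
          rw [← Finset.mul_sum, hr.sum y, mul_one]
        rw [Finset.sum_congr rfl fun y _ => e4 y, hp.reg x]
        field_simp)
    have e5 : ∑ z, (Fintype.card V * ∑ y, p x y * r y (A.symm z)) * φ (A x) z =
        Fintype.card V * ∑ y, p x y * ∑ z, r y z * φ (A x) (A z) := by
      rw [← Equiv.sum_comp A (fun z => (Fintype.card V * ∑ y, p x y * r y (A.symm z)) *
        φ (A x) z)]
      simp only [Equiv.symm_apply_apply, Finset.mul_sum, Finset.sum_mul]
      rw [Finset.sum_comm]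
      refine Finset.sum_congr rfl fun y _ => ?_
      refine Finset.sum_congr rfl fun z _ => ?_
      ring
    have h2 : (Fintype.card V : ℝ) * ∑ y, p x y * ∑ z, r y z * φ (A x) (A z) ≤ B := by
      rw [← e5]
      exact h1
    rw [le_div_iff₀ hn]
    linarith
  calc ∑ x, ∑ y, p x y * ∑ z, r y z * φ (A x) (A z) ≤ ∑ _x : V, B / Fintype.card V :=
        Finset.sum_le_sum fun x _ => e2 x
    _ = B := by
        rw [Finset.sum_const, Finset.card_univ, nsmul_eq_mul]
        field_simp

/-- first application: the exchanged labels are seldom close to each other -/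
theorem am_near (hQ : S_QR) (hM' : S_MARK) {p r : V → V → ℝ} {κ τ : ℝ} (hp : Wt p)
    (hr : Ker r κ) (hτ : 0 ≤ τ) (hc : Cmp p r τ) (m M K : ℕ) (hm : 2 ≤ m) (hM : 1 ≤ M)
    (hK : 1 ≤ K) :
    am p M (fun σ a b => ind (near K σ a b)) ≤ 2 * (1 / m + (4 * K + 1) * κ +
      (20 * Real.sqrt ((1 + τ) * (Fintype.card V * Real.log m) / M) + 4 * κ)) ∧
    am p M (fun σ a b => ind (near K σ b a)) ≤ 2 * (1 / m + (4 * K + 1) * κ +
      (20 * Real.sqrt ((1 + τ) * (Fintype.card V * Real.log m) / M) + 4 * κ)) := by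
  obtain ⟨Ω, fΩ, P, c, hP0, hP1, hc1, hc2⟩ := hM' V m K (by omega) hK
  have hMr : (0 : ℝ) < M := by exact_mod_cast hM
  set E : ℝ := 20 * Real.sqrt ((1 + τ) * (Fintype.card V * Real.log m) / M) + 4 * κ with hE
  set B : ℝ := 1 / m + (4 * K + 1) * κ with hB
  set φ : Perm V → V → V → ℝ := fun σ a z => ∑ ω, P ω * (if c σ ω a = c σ ω z then (1 : ℝ) else 0)
    with hφ
  have hφ0 : ∀ σ a b, 0 ≤ φ σ a b := by
    intro σ a b
    refine Finset.sum_nonneg fun ω _ => mul_nonneg (hP0 ω) ?_
    split_ifs <;> norm_num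
  have hφs : ∀ σ a b, φ σ a b = φ σ b a := by
    intro σ a b
    refine Finset.sum_congr rfl fun ω _ => ?_
    congr 1
    simp only [eq_comm]
  -- the inequality for each colouring
  set X : Ω → (Fin M → Lt V) → ℝ := fun ω w => (∑ j, ((if c (wp w) ω (la w j) = c (wp w) ω (lb w j)
      then (1 : ℝ) else 0) - gg p r (fun a b : Fin m => if a = b then (1 : ℝ) else 0)
        (c (wp w) ω ∘ pre w j))) / M with hX
  have hXω : ∀ ω, mean p M (X ω) ≤ E := by
    intro ω
    have h := hQ V p r κ τ hp hr hτ hc m M hm hM Unit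
      (fun _ a b => if a = b then (1 : ℝ) else 0)
      (fun _ a b => by simp only [eq_comm]) (fun _ a b => by split_ifs <;> simp)
      (fun _ => ()) (fun w => c (wp w) ω)
    rw [Fintype.card_unit, Nat.cast_one, Real.log_one, add_zero] at h
    exact (le_abs_self _).trans h
  have h1 : mean p M (fun w => ∑ ω, P ω * X ω w) ≤ E := by
    rw [mean_sum]
    calc ∑ ω, mean p M (fun w => P ω * X ω w) = ∑ ω, P ω * mean p M (X ω) := by
          refine Finset.sum_congr rfl fun ω _ => ?_
          exact mean_smul p M (P ω) (X ω)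
      _ ≤ ∑ ω, P ω * E := Finset.sum_le_sum fun ω _ => mul_le_mul_of_nonneg_left (hXω ω) (hP0 ω)
      _ = E := by rw [← Finset.sum_mul, hP1, one_mul]
  have h2 : am p M φ ≤ E + B := by
    have h3 : ∀ w : Fin M → Lt V, (∑ j, φ (wp w) (la w j) (lb w j)) / M ≤
        (∑ ω, P ω * X ω w) + B := by
      intro w
      have e1 : ∑ ω, P ω * X ω w = (∑ j, φ (wp w) (la w j) (lb w j)) / M -
          (∑ j, ∑ ω, P ω * gg p r (fun a b : Fin m => if a = b then (1 : ℝ) else 0)
            (c (wp w) ω ∘ pre w j)) / M := by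
        simp only [hX, hφ]
        rw [← sub_div, ← Finset.sum_sub_distrib]
        have e2 : ∀ ω, P ω * ((∑ j, ((if c (wp w) ω (la w j) = c (wp w) ω (lb w j)
            then (1 : ℝ) else 0) - gg p r (fun a b : Fin m => if a = b then (1 : ℝ) else 0)
            (c (wp w) ω ∘ pre w j))) / M) = (∑ j, (P ω * (if c (wp w) ω (la w j) =
            c (wp w) ω (lb w j) then (1 : ℝ) else 0) - P ω * gg p r (fun a b : Fin m =>
            if a = b then (1 : ℝ) else 0) (c (wp w) ω ∘ pre w j))) / M := by
          intro ω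
          rw [← mul_div_assoc, Finset.mul_sum]
          congr 1
          refine Finset.sum_congr rfl fun j _ => ?_
          ring
        rw [Finset.sum_congr rfl fun ω _ => e2 ω, ← Finset.sum_div, Finset.sum_comm]
        congr 1
        refine Finset.sum_congr rfl fun j _ => ?_
        rw [Finset.sum_sub_distrib]
      have e3 : (∑ j : Fin M, ∑ ω, P ω * gg p r (fun a b : Fin m => if a = b then (1 : ℝ) else 0)
            (c (wp w) ω ∘ pre w j)) / M ≤ B := by
        rw [div_le_iff₀ hMr]
        have e4 : ∑ j : Fin M, ∑ ω, P ω * gg p r (fun a b : Fin m => if a = b then (1 : ℝ) else 0)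
              (c (wp w) ω ∘ pre w j) ≤ ∑ _j : Fin M, B := by
          refine Finset.sum_le_sum fun j _ => ?_
          exact gg_bound hp hr P (c (wp w)) B
            (fun a q h0 h1 h2 => hc2 (wp w) a q κ h0 h1 h2) (pre w j)
        have e5 : ∑ _j : Fin M, B = B * M := by
          rw [Finset.sum_const, Finset.card_univ, Fintype.card_fin, nsmul_eq_mul, mul_comm]
        linarith
      rw [e1]
      linarith
    have h4 := mean_mono hp M h3
    rw [mean_add, mean_const hp] at h4
    unfold am
    linarith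
  have h5 : ∀ σ a b, ind (near K σ a b) ≤ 2 * φ σ a b := by
    intro σ a b
    refine ind_le _ _ (mul_nonneg (by norm_num) (hφ0 σ a b)) fun hn => ?_
    have := hc1 σ a b hn
    have h6 : (1 : ℝ) / 2 ≤ φ σ a b := this
    linarith
  constructor
  · calc am p M (fun σ a b => ind (near K σ a b)) ≤ am p M (fun σ a b => 2 * φ σ a b) :=
          am_mono hp M h5
      _ = 2 * am p M φ := am_smul p M 2 φ
      _ ≤ 2 * (B + E) := by linarith
  · calc am p M (fun σ a b => ind (near K σ b a)) ≤ am p M (fun σ a b => 2 * φ σ a b) :=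
          am_mono hp M fun σ a b => by
            have := h5 σ b a
            rwa [hφs σ b a] at this
      _ = 2 * am p M φ := am_smul p M 2 φ
      _ ≤ 2 * (B + E) := by linarith

end

open Classical in
/-- `gg` of the colouring by short cycles -/
theorem gg_small {V : Type} [Fintype V] [DecidableEq V] [Nonempty V] {p r : V → V → ℝ} {κ : ℝ}
    (hp : Wt p) (hr : Ker r κ) (K : ℕ) (σ A : Perm V) :
    small K σ / 2 ≤ gg p r (fun a b : Fin 2 => ((if a = 1 then (1 : ℝ) else 0) +
      (if b = 1 then (1 : ℝ) else 0)) / 2)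
      ((fun v => if cl σ v ≤ K then (1 : Fin 2) else 0) ∘ A) := by
  have hn : (0 : ℝ) < Fintype.card V := by exact_mod_cast Fintype.card_pos
  have h1 : ∀ x, ind (cl σ (A x) ≤ K) / 2 / Fintype.card V ≤
      ∑ y, p x y * ∑ z, r y z * (((if (if cl σ (A x) ≤ K then (1 : Fin 2) else 0) = 1
        then (1 : ℝ) else 0) + (if (if cl σ (A z) ≤ K then (1 : Fin 2) else 0) = 1
        then (1 : ℝ) else 0)) / 2) := by
    intro x
    have h2 : ∀ y, p x y * (ind (cl σ (A x) ≤ K) / 2) ≤
        p x y * ∑ z, r y z * (((if (if cl σ (A x) ≤ K then (1 : Fin 2) else 0) = 1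
        then (1 : ℝ) else 0) + (if (if cl σ (A z) ≤ K then (1 : Fin 2) else 0) = 1
        then (1 : ℝ) else 0)) / 2) := by
      intro y
      refine mul_le_mul_of_nonneg_left ?_ (hp.nn x y)
      calc ind (cl σ (A x) ≤ K) / 2 = ∑ z, r y z * (ind (cl σ (A x) ≤ K) / 2) := by
            rw [← Finset.sum_mul, hr.sum y, one_mul]
        _ ≤ _ := by
            refine Finset.sum_le_sum fun z _ => mul_le_mul_of_nonneg_left ?_ (hr.nn y z)
            unfold ind
            by_cases ha : cl σ (A x) ≤ K <;> by_cases hb : cl σ (A z) ≤ K <;>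
              simp [ha, hb] <;> norm_num
    calc ind (cl σ (A x) ≤ K) / 2 / Fintype.card V = ∑ y, p x y * (ind (cl σ (A x) ≤ K) / 2) := by
          rw [← Finset.sum_mul, hp.reg x]
          ring
      _ ≤ _ := Finset.sum_le_sum fun y _ => h2 y
  have h3 : small K σ / 2 = ∑ x, ind (cl σ (A x) ≤ K) / 2 / Fintype.card V := by
    have e1 : ∑ x, ind (cl σ (A x) ≤ K) / 2 / Fintype.card V =
        ∑ v, ind (cl σ v ≤ K) / 2 / Fintype.card V :=
      Equiv.sum_comp A (fun v => ind (cl σ v ≤ K) / 2 / (Fintype.card V : ℝ))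
    rw [e1, ← Finset.sum_div, ← Finset.sum_div]
    unfold small
    have e2 : (Nat.card {v : V // cl σ v ≤ K} : ℝ) = ∑ v, ind (cl σ v ≤ K) := by
      rw [Nat.card_eq_fintype_card, Fintype.card_subtype]
      unfold ind
      rw [Finset.card_filter]
      push_cast
      refine Finset.sum_congr rfl fun v _ => ?_
      by_cases hv : cl σ v ≤ K <;> simp [hv]
    rw [e2]
    ring
  rw [h3]
  unfold gg
  exact Finset.sum_le_sum fun x _ => h1 x

open Classical in
theorem small_cycles (h1 : S_QR) (h2 : S_FLIP) (h3 : S_MARK) : S_SMALL := by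
  refine ⟨200, by norm_num, ?_⟩
  intro V _ _ _ p r κ τ hp hr hτ hc m M K hm hM hK
  have hMr : (0 : ℝ) < M := by exact_mod_cast hM
  have hn : (0 : ℝ) < Fintype.card V := by exact_mod_cast Fintype.card_pos
  have hκ : 0 ≤ κ := by
    obtain ⟨v⟩ := ‹Nonempty V›
    exact (hr.nn v v).trans (hr.le v v)
  obtain ⟨n1, n2⟩ := am_near h1 h3 hp hr hτ hc m M K hm hM hK
  set S : ℝ := Real.sqrt ((1 + τ) * (Fintype.card V * Real.log m) / M) with hS
  obtain ⟨c1, c2⟩ := am_cl h2 hp M K _ n1 n2
  have q := h1 V p r κ τ hp hr hτ hc 2 M le_rfl hM Unit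
    (fun _ a b => ((if a = 1 then (1 : ℝ) else 0) + (if b = 1 then (1 : ℝ) else 0)) / 2)
    (fun _ a b => by ring) (fun _ a b => by
      split_ifs <;> norm_num [abs_of_nonneg])
    (fun _ => ()) (fun w v => if cl (wp w) v ≤ K then (1 : Fin 2) else 0)
  rw [Fintype.card_unit, Nat.cast_one, Real.log_one, add_zero] at q
  have hS2 : Real.sqrt ((1 + τ) * (Fintype.card V * Real.log ((2 : ℕ) : ℝ)) / M) ≤ S := by
    rw [hS]
    refine Real.sqrt_le_sqrt ?_
    have hl : Real.log ((2 : ℕ) : ℝ) ≤ Real.log m :=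
      Real.log_le_log (by norm_num) (by exact_mod_cast hm)
    have h1τ : 0 ≤ 1 + τ := by linarith
    gcongr
  have q1 := (neg_abs_le _).trans' (neg_le_neg q)
  have q2 : mean p M (fun w => small K (wp w) / 2) ≤
      am p M (fun σ a b => (ind (cl σ a ≤ K) + ind (cl σ b ≤ K)) / 2) +
        (20 * Real.sqrt ((1 + τ) * (Fintype.card V * Real.log ((2 : ℕ) : ℝ)) / M) + 4 * κ) := by
    have e1 : ∀ w : Fin M → Lt V,
        small K (wp w) / 2 + (∑ j, ((((if (if cl (wp w) (la w j) ≤ K then (1 : Fin 2) else 0) = 1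
          then (1 : ℝ) else 0) + (if (if cl (wp w) (lb w j) ≤ K then (1 : Fin 2) else 0) = 1
          then (1 : ℝ) else 0)) / 2) -
        gg p r (fun a b : Fin 2 => ((if a = 1 then (1 : ℝ) else 0) +
          (if b = 1 then (1 : ℝ) else 0)) / 2)
          ((fun v => if cl (wp w) v ≤ K then (1 : Fin 2) else 0) ∘ pre w j))) / M ≤
        (∑ j, (ind (cl (wp w) (la w j) ≤ K) + ind (cl (wp w) (lb w j) ≤ K)) / 2) / M := by
      intro w
      have e2 : small K (wp w) / 2 = (∑ _j : Fin M, small K (wp w) / 2) / M := by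
        rw [Finset.sum_const, Finset.card_univ, Fintype.card_fin, nsmul_eq_mul]
        field_simp
      rw [e2, ← add_div, ← Finset.sum_add_distrib]
      refine div_le_div_of_nonneg_right ?_ hMr.le
      refine Finset.sum_le_sum fun j _ => ?_
      have h4 := gg_small hp hr K (wp w) (pre w j)
      have h5 : ∀ v, (if (if cl (wp w) v ≤ K then (1 : Fin 2) else 0) = 1
          then (1 : ℝ) else 0) = ind (cl (wp w) v ≤ K) := by
        intro v
        unfold ind
        by_cases hv : cl (wp w) v ≤ K <;> simp [hv]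
      rw [h5, h5]
      linarith
    have e3 := mean_mono hp M e1
    rw [mean_add] at e3
    have e4 : mean p M (fun w => (∑ j, (ind (cl (wp w) (la w j) ≤ K) +
        ind (cl (wp w) (lb w j) ≤ K)) / 2) / M) =
        am p M (fun σ a b => (ind (cl σ a ≤ K) + ind (cl σ b ≤ K)) / 2) := rfl
    rw [e4] at e3
    linarith
  have q3 : am p M (fun σ a b => (ind (cl σ a ≤ K) + ind (cl σ b ≤ K)) / 2) =
      (am p M (fun σ a _ => ind (cl σ a ≤ K)) + am p M (fun σ _ b => ind (cl σ b ≤ K))) / 2 := by
    have e := am_smul p M (1 / 2) (fun σ a b => ind (cl σ a ≤ K) + ind (cl σ b ≤ K))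
    rw [am_add] at e
    have e' : (fun (σ : Perm V) (a b : V) => (ind (cl σ a ≤ K) + ind (cl σ b ≤ K)) / 2) =
        fun σ a b => 1 / 2 * (ind (cl σ a ≤ K) + ind (cl σ b ≤ K)) := by
      funext σ a b
      ring
    rw [e', e]
    ring
  have q4 : mean p M (fun w => small K (wp w)) = 2 * mean p M (fun w => small K (wp w) / 2) := by
    rw [← mean_smul]
    congr 1
    funext w
    ring
  have hS0 : 0 ≤ S := Real.sqrt_nonneg _
  have hKr : (1 : ℝ) ≤ K := by exact_mod_cast hK
  have hm0 : (0 : ℝ) ≤ 1 / m := by positivity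
  have hKκ : κ ≤ K * κ := by nlinarith
  rw [q4]
  rw [q3] at q2
  nlinarith [q2, c1, c2, hS2, hS0, hKκ, hm0]

end Pool.Agent.Y836.RS
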