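import Pool.Agent.Y105.RS.Stm

set_option autoImplicit false
set_option linter.unusedSectionVars false

open Finset Equiv

namespace Pool.Agent.Y836.RS

open Pool.Agent.Y105.RS

section cyc

variable {V : Type} [Fintype V] [DecidableEq V]

theorem mp_le (σ : Perm V) (a : V) : Function.minimalPeriod σ a ≤ cl σ a := by
  unfold cl
  have h : Function.Injective (fun i : Fin (Function.minimalPeriod σ a) =>
      (⟨(σ ^ (i : ℕ)) a, ⟨(i : ℕ), by simp⟩⟩ : {w : V // σ.SameCycle a w})) := by
    intro i j hij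
    have h1 : (σ ^ (i : ℕ)) a = (σ ^ (j : ℕ)) a := congrArg Subtype.val hij
    have h2 := Function.iterate_injOn_Iio_minimalPeriod (f := σ) (x := a)
      (Set.mem_Iio.2 i.2) (Set.mem_Iio.2 j.2)
      (by simpa [Equiv.Perm.iterate_eq_pow] using h1)
    exact Fin.ext h2
  have := Nat.card_le_card_of_injective _ h
  simpa using this

theorem mp_pos (σ : Perm V) (a : V) : 0 < Function.minimalPeriod σ a :=
  Function.minimalPeriod_pos_of_mem_periodicPts (σ.injective.mem_periodicPts a)

theorem pow_mp (σ : Perm V) (a : V) : (σ ^ (Function.minimalPeriod σ a)) a = a := by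
  have h := Function.iterate_minimalPeriod (f := σ) (x := a)
  rwa [Equiv.Perm.iterate_eq_pow] at h

/-- `b` is reached from `a` in at most `K` steps -/
def near (K : ℕ) (σ : Perm V) (a b : V) : Prop := ∃ k ≤ K, (σ ^ k) a = b

theorem near_same (K : ℕ) (σ : Perm V) (a b : V) (h : cl σ a ≤ K) (hs : σ.SameCycle a b) :
    near K σ a b := by
  obtain ⟨i, hi⟩ := hs.exists_nat_pow_eq
  refine ⟨i % Function.minimalPeriod σ a, ?_, ?_⟩
  · exact (Nat.mod_lt _ (mp_pos σ a)).le.trans ((mp_le σ a).trans h)
  · have h1 := Function.iterate_mod_minimalPeriod_eq (f := σ) (x := a) (n := i)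
    rw [Equiv.Perm.iterate_eq_pow, Equiv.Perm.iterate_eq_pow] at h1
    rw [h1, hi]

theorem near_diff (K : ℕ) (σ : Perm V) (a b : V) (h : cl σ a ≤ K) (hs : ¬ σ.SameCycle a b) :
    near K (swap a b * σ) a b := by
  have key : ∀ i, i < Function.minimalPeriod σ a → ((swap a b * σ) ^ i) a = (σ ^ i) a := by
    intro i
    induction i with
    | zero => intro _; simp
    | succ i ih =>
      intro hi
      have hi' : i < Function.minimalPeriod σ a := by omega
      rw [pow_succ', Perm.mul_apply, ih hi', Perm.mul_apply]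
      have e : σ ((σ ^ i) a) = (σ ^ (i + 1)) a := by rw [pow_succ', Perm.mul_apply]
      rw [e]
      apply swap_apply_of_ne_of_ne
      · intro hc
        have hc' : (fun k => (σ : V → V)^[k] a) (i + 1) = (fun k => (σ : V → V)^[k] a) 0 := by
          show (σ : V → V)^[i + 1] a = a
          rw [Equiv.Perm.iterate_eq_pow]
          exact hc
        have h2 := Function.iterate_injOn_Iio_minimalPeriod (f := σ) (x := a)
          (Set.mem_Iio.2 hi) (Set.mem_Iio.2 (mp_pos σ a)) hc'
        omega
      · intro hc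
        exact hs ⟨((i + 1 : ℕ) : ℤ), by rw [zpow_natCast]; exact hc⟩
  refine ⟨Function.minimalPeriod σ a, (mp_le σ a).trans h, ?_⟩
  obtain ⟨l, hl⟩ : ∃ l, Function.minimalPeriod σ a = l + 1 :=
    ⟨Function.minimalPeriod σ a - 1, by have := mp_pos σ a; omega⟩
  have hk := key l (by omega)
  rw [hl, pow_succ', Perm.mul_apply, hk, Perm.mul_apply]
  have e : σ ((σ ^ l) a) = (σ ^ (l + 1)) a := by rw [pow_succ', Perm.mul_apply]
  rw [e, ← hl, pow_mp, swap_apply_left]

end cyc

section mean

variable {V : Type} [Fintype V] [DecidableEq V]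

theorem mean_add (p : V → V → ℝ) (M : ℕ) (F G : (Fin M → Lt V) → ℝ) :
    mean p M (fun w => F w + G w) = mean p M F + mean p M G := by
  unfold mean
  rw [← Finset.sum_add_distrib]
  refine Finset.sum_congr rfl fun w _ => ?_
  ring

theorem mean_sub (p : V → V → ℝ) (M : ℕ) (F G : (Fin M → Lt V) → ℝ) :
    mean p M (fun w => F w - G w) = mean p M F - mean p M G := by
  unfold mean
  rw [← Finset.sum_sub_distrib]
  refine Finset.sum_congr rfl fun w _ => ?_
  ring

theorem mean_smul (p : V → V → ℝ) (M : ℕ) (c : ℝ) (F : (Fin M → Lt V) → ℝ) :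
    mean p M (fun w => c * F w) = c * mean p M F := by
  unfold mean
  rw [Finset.mul_sum]
  refine Finset.sum_congr rfl fun w _ => ?_
  ring

theorem mean_sum (p : V → V → ℝ) (M : ℕ) {ι : Type} (s : Finset ι)
    (F : ι → (Fin M → Lt V) → ℝ) :
    mean p M (fun w => ∑ i ∈ s, F i w) = ∑ i ∈ s, mean p M (F i) := by
  unfold mean
  rw [Finset.sum_comm]
  refine Finset.sum_congr rfl fun w _ => ?_
  rw [Finset.mul_sum]

theorem mean_mono {p : V → V → ℝ} (hp : Wt p) (M : ℕ) {F G : (Fin M → Lt V) → ℝ}
    (h : ∀ w, F w ≤ G w) : mean p M F ≤ mean p M G := by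
  unfold mean
  refine Finset.sum_le_sum fun w _ => ?_
  refine mul_le_mul_of_nonneg_left (h w) ?_
  refine Finset.prod_nonneg fun i _ => ?_
  have := hp.nn (w i).1.1 (w i).1.2
  positivity

theorem mean_one [Nonempty V] {p : V → V → ℝ} (hp : Wt p) (M : ℕ) :
    mean p M (fun _ => 1) = 1 := by
  unfold mean
  simp only [mul_one]
  have h := (Finset.prod_univ_sum (fun _ : Fin M => (Finset.univ : Finset (Lt V)))
    (fun _ l => p l.1.1 l.1.2 / 2))
  simp only [Fintype.piFinset_univ] at h
  rw [← h]
  have h1 : ∑ l : Lt V, p l.1.1 l.1.2 / 2 = 1 := by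
    rw [Fintype.sum_prod_type, Fintype.sum_prod_type]
    simp only [Fintype.sum_bool]
    have h2 : ∀ x : V, ∑ y : V, (p x y / 2 + p x y / 2) = 1 / Fintype.card V := by
      intro x
      rw [← hp.reg x]
      refine Finset.sum_congr rfl fun y _ => ?_
      ring
    rw [Finset.sum_congr rfl fun x _ => h2 x]
    rw [Finset.sum_const, Finset.card_univ, nsmul_eq_mul]
    have : (Fintype.card V : ℝ) ≠ 0 := by
      exact_mod_cast Fintype.card_ne_zero
    field_simp
  rw [h1]
  simp

theorem mean_const [Nonempty V] {p : V → V → ℝ} (hp : Wt p) (M : ℕ) (c : ℝ) :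
    mean p M (fun _ => c) = c := by
  have h := mean_smul p M c (fun _ => 1)
  simp only [mul_one] at h
  rw [h, mean_one hp, mul_one]

end mean

end Pool.Agent.Y836.RS
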